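import Pool.Agent.W257.HL.Stm

set_option autoImplicit false

namespace Pool.Agent.W257.HL

/-- RED2: reduction of the quartic, with an upper bound for the entries `v₁, v₂`. -/
def S_RED2 : Prop := ∃ C : ℕ, ∀ A B x y : ℤ, ∀ H : ℕ, H = max A.natAbs B.natAbs → 1 ≤ H →
  y ^ 2 = x ^ 3 + A * x + B → 0 ≤ y → (H : ℤ) ≤ x →
  (∀ u v : ℤ, v ≠ 0 → gq A x y u v ≠ 0) →
  ∃ u₁ v₁ u₂ v₂ : ℤ, u₁ * v₂ - u₂ * v₁ = 1 ∧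
    (gq A x y u₁ v₁).natAbs ≤ C * H ^ 2 ∧ (cb A x y u₁ v₁ u₂ v₂).natAbs ≤ C * H ^ 2 ∧
    (cc A x y u₁ v₁ u₂ v₂).natAbs ≤ C * H ^ 2 ∧ (cb A x y u₂ v₂ u₁ v₁).natAbs ≤ C * H ^ 2 ∧
    (gq A x y u₂ v₂).natAbs ≤ C * H ^ 2 ∧
    x.natAbs ≤ C * H * (max v₁.natAbs v₂.natAbs) ^ 4 ∧
    max v₁.natAbs v₂.natAbs ≤ C * H * x.natAbs

end Pool.Agent.W257.HL
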