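import Pool.Agent.W554.HL.RED
import Pool.Agent.W257.HL.Stm2

/-!
The reduction of the quartic (proof of helper554) with an upper bound for the entries.
-/

set_option autoImplicit false

namespace Pool.Agent.W257.HL

open Pool.Agent.W554.HL

theorem le_of_sq_le_sq' {T H : ℝ} (h : T ^ 2 ≤ 37 * H) (hH : 1 ≤ H) : T ≤ 37 * H := by
  by_contra hcon
  push Not at hcon
  nlinarith

set_option maxHeartbeats 4000000 in
theorem t_RED2 : S_RED2 := by
  refine ⟨150000, ?_⟩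
  intro A B x y H hH hH1 hE hy hx hg
  have hHR : (1 : ℝ) ≤ H := by exact_mod_cast hH1
  have hxR : (H : ℝ) ≤ x := by exact_mod_cast hx
  have hx1 : (1 : ℝ) ≤ x := hHR.trans hxR
  have hyR : (0 : ℝ) ≤ y := by exact_mod_cast hy
  have hA : |(A : ℝ)| ≤ H := by
    have : |A| ≤ (H : ℤ) := by
      rw [Int.abs_eq_natAbs, hH]
      exact_mod_cast le_max_left _ _
    exact_mod_cast this
  have hB : |(B : ℝ)| ≤ H := by
    have : |B| ≤ (H : ℤ) := by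
      rw [Int.abs_eq_natAbs, hH]
      exact_mod_cast le_max_right _ _
    exact_mod_cast this
  have hER : (y : ℝ) ^ 2 = (x : ℝ) ^ 3 + A * x + B := by exact_mod_cast hE
  obtain ⟨V, hV⟩ : ∃ V, V = Real.sqrt (Real.sqrt (x : ℝ)) := ⟨_, rfl⟩
  have hV2 : V ^ 2 = Real.sqrt (x : ℝ) := by rw [hV, Real.sq_sqrt (Real.sqrt_nonneg _)]
  have hV4 : V ^ 4 = x := by
    have : V ^ 4 = (V ^ 2) ^ 2 := by ring
    rw [this, hV2, Real.sq_sqrt (by linarith)]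
  have hV1 : 1 ≤ V := by
    rw [hV]
    exact Real.one_le_sqrt.2 (Real.one_le_sqrt.2 hx1)
  have hV0 : 0 < V := by linarith
  obtain ⟨u₁, v₁, u₂, v₂, j, hdet, hv1, -, -, h1, h2⟩ := Pool.Agent.W349.HZ.LAT.t (V ^ 2) V hV1
  obtain ⟨T, hT⟩ : ∃ T : ℝ, T = 2 ^ j / 2 := ⟨_, rfl⟩
  rw [← hT] at h1 h2
  have hT1 : 1 / 2 ≤ T := by
    rw [hT]
    have : (1 : ℝ) ≤ 2 ^ j := one_le_pow₀ (by norm_num)
    linarith
  have hT0 : 0 < T := by linarith
  obtain ⟨s1, hs1⟩ : ∃ s1, s1 = ((u₁ : ℝ) - V ^ 2 * v₁) * V := ⟨_, rfl⟩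
  obtain ⟨s2, hs2⟩ : ∃ s2, s2 = ((u₂ : ℝ) - V ^ 2 * v₂) * V := ⟨_, rfl⟩
  obtain ⟨r1, hr1⟩ : ∃ r1, r1 = (v₁ : ℝ) / V := ⟨_, rfl⟩
  obtain ⟨r2, hr2⟩ : ∃ r2, r2 = (v₂ : ℝ) / V := ⟨_, rfl⟩
  rw [← hs1, ← hr1] at h1
  rw [← hs2, ← hr2] at h2
  -- sizes of the scaled vectors
  obtain ⟨p, hp⟩ : ∃ p, p = 1 / T := ⟨_, rfl⟩
  have hpT : p * T = 1 := by rw [hp]; field_simp
  have hp0 : 0 < p := by rw [hp]; positivity
  have hp2 : p ≤ 2 := by
    rw [hp, div_le_iff₀ hT0]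
    linarith
  have bs1 : |s1| ≤ p := by
    have h3 : (s1 * T) ^ 2 ≤ 1 := by nlinarith [sq_nonneg (r1 * T)]
    have h4 : |s1 * T| ≤ 1 := by
      rw [← abs_one, ← sq_le_sq, one_pow]
      exact h3
    rw [abs_mul, abs_of_pos hT0] at h4
    rw [hp, le_div_iff₀ hT0]
    exact h4
  have br1 : |r1| ≤ p := by
    have h3 : (r1 * T) ^ 2 ≤ 1 := by nlinarith [sq_nonneg (s1 * T)]
    have h4 : |r1 * T| ≤ 1 := by
      rw [← abs_one, ← sq_le_sq, one_pow]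
      exact h3
    rw [abs_mul, abs_of_pos hT0] at h4
    rw [hp, le_div_iff₀ hT0]
    exact h4
  have bs2 : |s2| ≤ 3 * T := by
    apply abs_le_of_sq_le_sq _ (by positivity)
    nlinarith [sq_nonneg r2, sq_nonneg T]
  have br2 : |r2| ≤ 3 * T := by
    apply abs_le_of_sq_le_sq _ (by positivity)
    nlinarith [sq_nonneg s2, sq_nonneg T]
  -- the form
  obtain ⟨η, hη⟩ : ∃ η, η = (y : ℝ) - V ^ 6 := ⟨_, rfl⟩
  have hyη : (y : ℝ) = V ^ 6 + η := by rw [hη]; ring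
  have hD0 : 0 < (y : ℝ) + V ^ 6 := by positivity
  have hDV : V ^ 6 ≤ (y : ℝ) + V ^ 6 := by linarith
  have hηD : η * ((y : ℝ) + V ^ 6) = A * V ^ 4 + B := by
    have : η * ((y : ℝ) + V ^ 6) = (y : ℝ) ^ 2 - (V ^ 4) ^ 3 := by rw [hη]; ring
    rw [this, hER, hV4]
    ring
  have hV41 : 1 ≤ V ^ 4 := by rw [hV4]; exact hx1
  have hV4H : (H : ℝ) ≤ V ^ 4 := by rw [hV4]; exact hxR
  have hAVB : |(A : ℝ) * V ^ 4 + B| ≤ 2 * H * V ^ 4 := by
    have t1 := abs_add_le ((A : ℝ) * V ^ 4) B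
    rw [abs_mul, abs_of_pos (by positivity : (0 : ℝ) < V ^ 4)] at t1
    have t2 : |(A : ℝ)| * V ^ 4 ≤ H * V ^ 4 := by gcongr
    have t3 : (H : ℝ) * 1 ≤ H * V ^ 4 := by gcongr
    linarith
  have hη2 : |η| * V ^ 2 ≤ 2 * H := by
    have t1 : (|η| * V ^ 2) * V ^ 4 ≤ (2 * H) * V ^ 4 := by
      calc (|η| * V ^ 2) * V ^ 4 = |η| * V ^ 6 := by ring
        _ ≤ |η| * ((y : ℝ) + V ^ 6) := by gcongr
        _ = |η * ((y : ℝ) + V ^ 6)| := by rw [abs_mul, abs_of_pos hD0]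
        _ ≤ _ := by rw [hηD]; exact hAVB
    exact le_of_mul_le_mul_right t1 (by positivity)
  obtain ⟨E1, hE1⟩ : ∃ E1, E1 = 8 * η * V ^ 2 := ⟨_, rfl⟩
  obtain ⟨E2, hE2⟩ : ∃ E2, E2 = (8 * η * V ^ 2 - 4 * A) * V ^ 4 := ⟨_, rfl⟩
  obtain ⟨ε, hε⟩ : ∃ ε, ε = 1 / V ^ 4 := ⟨_, rfl⟩
  have bE1 : |E1| ≤ 16 * H := by
    rw [hE1, abs_mul, abs_mul, abs_of_pos (by positivity : (0 : ℝ) < V ^ 2),
      abs_of_pos (by norm_num : (0 : ℝ) < 8)]
    linarith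
  have bE2 : |E2| ≤ 16 * H := by
    have t0 : E2 * ((y : ℝ) + V ^ 6) = (-4 * A * η) * V ^ 4 + 8 * B * V ^ 6 := by
      have : E2 * ((y : ℝ) + V ^ 6) =
          8 * V ^ 6 * (η * ((y : ℝ) + V ^ 6)) - 4 * A * V ^ 4 * ((y : ℝ) + V ^ 6) := by
        rw [hE2]; ring
      rw [this, hηD, hη]
      ring
    have t1 : |E2| * ((y : ℝ) + V ^ 6) ≤ (16 * H) * ((y : ℝ) + V ^ 6) := by
      calc |E2| * ((y : ℝ) + V ^ 6) = |E2 * ((y : ℝ) + V ^ 6)| := by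
            rw [abs_mul, abs_of_pos hD0]
        _ = |(-4 * A * η) * V ^ 4 + 8 * B * V ^ 6| := by rw [t0]
        _ ≤ |(-4 * A * η) * V ^ 4| + |8 * B * V ^ 6| := abs_add_le _ _
        _ = (4 * |(A : ℝ)| * |η|) * V ^ 4 + 8 * |(B : ℝ)| * V ^ 6 := by
            rw [abs_mul, abs_mul, abs_mul, abs_mul, abs_mul,
              abs_of_pos (by positivity : (0 : ℝ) < V ^ 4),
              abs_of_pos (by positivity : (0 : ℝ) < V ^ 6),
              abs_of_pos (by norm_num : (0 : ℝ) < 8), abs_neg,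
              abs_of_pos (by norm_num : (0 : ℝ) < 4)]
        _ = 4 * |(A : ℝ)| * (|η| * V ^ 2) * V ^ 2 + 8 * |(B : ℝ)| * V ^ 6 := by ring
        _ ≤ 4 * H * (2 * H) * V ^ 2 + 8 * H * V ^ 6 := by gcongr
        _ = 8 * H * H * V ^ 2 + 8 * H * V ^ 6 := by ring
        _ ≤ 8 * H * V ^ 4 * V ^ 2 + 8 * H * V ^ 6 := by gcongr
        _ = 16 * H * V ^ 6 := by ring
        _ ≤ _ := by gcongr
    exact le_of_mul_le_mul_right t1 hD0
  have bε : |ε| ≤ 1 := by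
    rw [hε, abs_of_pos (by positivity), div_le_one (by positivity)]
    exact hV41
  have hVne : V ≠ 0 := hV0.ne'
  have gen : ∀ (u v : ℤ) (s r : ℝ), s = ((u : ℝ) - V ^ 2 * v) * V → r = (v : ℝ) / V →
      ((gq A x y u v : ℤ) : ℝ) = ph ε E1 E2 s r := by
    intro u v s r hs hr
    unfold gq ph
    push_cast
    rw [hyη, ← hV4, hε, hE1, hE2, hs, hr]
    field_simp
    ring
  have gen3 : ∀ (u v : ℤ) (s r : ℝ) (u' v' : ℤ) (s' r' : ℝ), s = ((u : ℝ) - V ^ 2 * v) * V →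
      r = (v : ℝ) / V → s' = ((u' : ℝ) - V ^ 2 * v') * V → r' = (v' : ℝ) / V →
      ((cb A x y u v u' v' : ℤ) : ℝ) = ph3 ε E1 E2 s r s' r' := by
    intro u v s r u' v' s' r' hs hr hs' hr'
    unfold cb ph3
    push_cast
    rw [hyη, ← hV4, hε, hE1, hE2, hs, hr, hs', hr']
    field_simp
    ring
  have gen2 : ((cc A x y u₁ v₁ u₂ v₂ : ℤ) : ℝ) = ph2 ε E1 E2 s1 r1 s2 r2 := by
    unfold cc ph2
    push_cast
    rw [hyη, ← hV4, hε, hE1, hE2, hs1, hr1, hs2, hr2]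
    field_simp
    ring
  have b1 := ph_le ε E1 E2 H s1 r1 p bε bE1 bE2 hHR bs1 br1
  have b2 := ph3_le ε E1 E2 H s1 r1 s2 r2 p (3 * T) bε bE1 bE2 hHR bs1 br1 bs2 br2
  have b3 := ph2_le ε E1 E2 H s1 r1 s2 r2 p (3 * T) bε bE1 bE2 hHR bs1 br1 bs2 br2
  have b4 := ph3_le ε E1 E2 H s2 r2 s1 r1 (3 * T) p bε bE1 bE2 hHR bs2 br2 bs1 br1
  have b5 := ph_le ε E1 E2 H s2 r2 (3 * T) bε bE1 bE2 hHR bs2 br2
  rw [← gen u₁ v₁ s1 r1 hs1 hr1] at b1
  rw [← gen3 u₁ v₁ s1 r1 u₂ v₂ s2 r2 hs1 hr1 hs2 hr2] at b2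
  rw [← gen2] at b3
  rw [← gen3 u₂ v₂ s2 r2 u₁ v₁ s1 r1 hs2 hr2 hs1 hr1] at b4
  rw [← gen u₂ v₂ s2 r2 hs2 hr2] at b5
  -- the size of T
  have hT4 : T ^ 4 ≤ 37 * H := by
    have h3 : gq A x y u₁ v₁ ≠ 0 := hg u₁ v₁ (by omega)
    have h4 : (1 : ℝ) ≤ |((gq A x y u₁ v₁ : ℤ) : ℝ)| := by
      have : 1 ≤ |gq A x y u₁ v₁| := Int.one_le_abs h3
      exact_mod_cast this
    have h5 : 1 ≤ 37 * (H : ℝ) * (p * p * p * p) := h4.trans b1
    calc T ^ 4 = 1 * T ^ 4 := by ring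
      _ ≤ (37 * (H : ℝ) * (p * p * p * p)) * T ^ 4 := by gcongr
      _ = 37 * H * (p * T) ^ 4 := by ring
      _ = 37 * H := by rw [hpT]; ring
  have hT2 : T ^ 2 ≤ 37 * H := by
    rcases le_total (T ^ 2) 1 with h | h
    · linarith
    · have h6 : T ^ 2 * 1 ≤ T ^ 2 * T ^ 2 := mul_le_mul_of_nonneg_left h (sq_nonneg T)
      have h7 : T ^ 2 * T ^ 2 = T ^ 4 := by ring
      linarith
  have hHH : (H : ℝ) ≤ (H : ℝ) ^ 2 := by nlinarith
  refine ⟨u₁, v₁, u₂, v₂, hdet, ?_, ?_, ?_, ?_, ?_, ?_, ?_⟩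
  · apply nat_of_real
    refine b1.trans ?_
    push_cast
    have : p * p * p * p ≤ 2 * 2 * 2 * 2 := by gcongr
    have h3 : 37 * (H : ℝ) * (p * p * p * p) ≤ 37 * H * (2 * 2 * 2 * 2) := by gcongr
    linarith
  · apply nat_of_real
    refine b2.trans ?_
    push_cast
    have e : p * p * p * (3 * T) = 3 * (p * p) * (p * T) := by ring
    rw [e, hpT]
    have : p * p ≤ 2 * 2 := by gcongr
    have h3 : 148 * (H : ℝ) * (3 * (p * p) * 1) ≤ 148 * H * (3 * (2 * 2) * 1) := by gcongr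
    linarith
  · apply nat_of_real
    refine b3.trans ?_
    push_cast
    have e : p * p * (3 * T) * (3 * T) = 9 * (p * T) ^ 2 := by ring
    rw [e, hpT]
    linarith
  · apply nat_of_real
    refine b4.trans ?_
    push_cast
    have e : 3 * T * (3 * T) * (3 * T) * p = 27 * T ^ 2 * (p * T) := by ring
    rw [e, hpT]
    have h3 : 148 * (H : ℝ) * (27 * T ^ 2 * 1) ≤ 148 * H * (27 * (37 * H) * 1) := by gcongr
    nlinarith
  · apply nat_of_real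
    refine b5.trans ?_
    push_cast
    have e : 3 * T * (3 * T) * (3 * T) * (3 * T) = 81 * T ^ 4 := by ring
    rw [e]
    have h3 : 37 * (H : ℝ) * (81 * T ^ 4) ≤ 37 * H * (81 * (37 * H)) := by gcongr
    nlinarith
  · obtain ⟨m, hm⟩ : ∃ m : ℕ, m = max v₁.natAbs v₂.natAbs := ⟨_, rfl⟩
    rw [← hm]
    have hv1m : |(v₁ : ℝ)| ≤ m := by
      have : |v₁| ≤ (m : ℤ) := by
        rw [Int.abs_eq_natAbs, hm]
        exact_mod_cast le_max_left _ _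
      exact_mod_cast this
    have hv2m : |(v₂ : ℝ)| ≤ m := by
      have : |v₂| ≤ (m : ℤ) := by
        rw [Int.abs_eq_natAbs, hm]
        exact_mod_cast le_max_right _ _
      exact_mod_cast this
    have hdR : (u₁ : ℝ) * v₂ - u₂ * v₁ = 1 := by exact_mod_cast hdet
    have h3 : s1 * v₂ - s2 * v₁ = V := by
      rw [hs1, hs2]
      linear_combination V * hdR
    have h4 : V ≤ 7 * T * m := by
      have t1 : |s1 * v₂ - s2 * v₁| ≤ |s1 * v₂| + |s2 * v₁| := abs_sub _ _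
      rw [h3, abs_of_pos hV0, abs_mul, abs_mul] at t1
      have t2 : |s1| * |(v₂ : ℝ)| ≤ p * m := by gcongr
      have t3 : |s2| * |(v₁ : ℝ)| ≤ 3 * T * m := by gcongr
      have t4 : p ≤ 4 * T := by
        rw [hp, div_le_iff₀ hT0]
        nlinarith
      have hm0 : (0 : ℝ) ≤ m := Nat.cast_nonneg _
      have t5 : p * m ≤ 4 * T * m := by gcongr
      linarith
    have h5 : (x : ℝ) ≤ 150000 * H * (m : ℝ) ^ 4 := by
      rw [← hV4]
      calc V ^ 4 ≤ (7 * T * m) ^ 4 := by gcongr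
        _ = 2401 * T ^ 4 * m ^ 4 := by ring
        _ ≤ 2401 * (37 * H) * m ^ 4 := by gcongr
        _ ≤ _ := by
          have : 0 ≤ (H : ℝ) * (m : ℝ) ^ 4 := by positivity
          nlinarith
    have h6 : |(x : ℝ)| ≤ ((150000 * H * m ^ 4 : ℕ) : ℝ) := by
      rw [abs_of_nonneg (by linarith)]
      push_cast
      exact h5
    exact nat_of_real _ _ h6
  · have hxV : V ≤ x := by
      rw [← hV4]
      calc V = V ^ 1 := by ring
        _ ≤ V ^ 4 := pow_le_pow_right₀ hV1 (by norm_num)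
    have hT37 : T ≤ 37 * H := by
      apply le_of_sq_le_sq' hT2 hHR
    have hHx : (0 : ℝ) ≤ (H : ℝ) * x := by positivity
    have w1 : |(v₁ : ℝ)| ≤ 150000 * H * x := by
      have q1 : (v₁ : ℝ) = r1 * V := by rw [hr1]; field_simp
      rw [q1, abs_mul, abs_of_pos hV0]
      calc |r1| * V ≤ 2 * x := by
            apply mul_le_mul (br1.trans hp2) hxV hV0.le (by norm_num)
        _ ≤ 150000 * H * x := by nlinarith
    have w2 : |(v₂ : ℝ)| ≤ 150000 * H * x := by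
      have q1 : (v₂ : ℝ) = r2 * V := by rw [hr2]; field_simp
      rw [q1, abs_mul, abs_of_pos hV0]
      calc |r2| * V ≤ (3 * (37 * H)) * x := by
            apply mul_le_mul (br2.trans (by linarith)) hxV hV0.le (by positivity)
        _ ≤ 150000 * H * x := by nlinarith
    have hxn : ((x.natAbs : ℕ) : ℝ) = x := by
      rw [Nat.cast_natAbs]
      push_cast
      exact abs_of_nonneg (by linarith)
    apply max_le
    · apply nat_of_real
      push_cast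
      rw [hxn]
      exact w1
    · apply nat_of_real
      push_cast
      rw [hxn]
      exact w2

end Pool.Agent.W257.HL
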