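import Mathlib

/-!
Statements for the Hall-Lang conjecture for integral points with halves in a fixed real field,
and for the weak Hall conjecture for points with a fixed cubic field.
-/

set_option autoImplicit false

namespace Pool.Agent.W257.HL

/-- The quartic form of an integral point `(x, y)` of `y ^ 2 = x ^ 3 + A x + B`; its roots are the
slopes of the tangents that pass through `-P`. -/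
def gq (A x y X Y : ℤ) : ℤ :=
  X ^ 4 - 6 * x * X ^ 2 * Y ^ 2 + 8 * y * X * Y ^ 3 - (3 * x ^ 2 + 4 * A) * Y ^ 4

/-- The coefficient of `X ^ 3 Y` of `gq A x y (u₁ X + u₂ Y) (v₁ X + v₂ Y)`. -/
def cb (A x y u₁ v₁ u₂ v₂ : ℤ) : ℤ :=
  4 * u₁ ^ 3 * u₂ - 6 * x * (2 * u₁ * u₂ * v₁ ^ 2 + 2 * u₁ ^ 2 * v₁ * v₂)
    + 8 * y * (u₂ * v₁ ^ 3 + 3 * u₁ * v₁ ^ 2 * v₂) - (3 * x ^ 2 + 4 * A) * (4 * v₁ ^ 3 * v₂)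

/-- The coefficient of `X ^ 2 Y ^ 2`. -/
def cc (A x y u₁ v₁ u₂ v₂ : ℤ) : ℤ :=
  6 * u₁ ^ 2 * u₂ ^ 2 - 6 * x * (u₂ ^ 2 * v₁ ^ 2 + 4 * u₁ * u₂ * v₁ * v₂ + u₁ ^ 2 * v₂ ^ 2)
    + 8 * y * (3 * u₂ * v₁ ^ 2 * v₂ + 3 * u₁ * v₁ * v₂ ^ 2)
    - (3 * x ^ 2 + 4 * A) * (6 * v₁ ^ 2 * v₂ ^ 2)

theorem gq_subst (A x y u₁ v₁ u₂ v₂ X Y : ℤ) :
    gq A x y (u₁ * X + u₂ * Y) (v₁ * X + v₂ * Y)
      = gq A x y u₁ v₁ * X ^ 4 + cb A x y u₁ v₁ u₂ v₂ * X ^ 3 * Y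
        + cc A x y u₁ v₁ u₂ v₂ * X ^ 2 * Y ^ 2 + cb A x y u₂ v₂ u₁ v₁ * X * Y ^ 3
        + gq A x y u₂ v₂ * Y ^ 4 := by
  unfold gq cb cc
  ring

/-- LIN: the quartic has a rational root. -/
def S_LIN : Prop := ∃ C : ℕ, ∀ A B x y l : ℤ, 4 * A ^ 3 + 27 * B ^ 2 ≠ 0 →
  y ^ 2 = x ^ 3 + A * x + B →
  l ^ 4 - 6 * x * l ^ 2 + 8 * y * l - (3 * x ^ 2 + 4 * A) = 0 →
  x.natAbs ≤ C * (max A.natAbs B.natAbs) ^ 20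

/-- QUAD: the quartic is a product of two quadratic polynomials. -/
def S_QUAD : Prop := ∃ C : ℕ, ∀ A B x y s m n : ℤ, 4 * A ^ 3 + 27 * B ^ 2 ≠ 0 →
  y ^ 2 = x ^ 3 + A * x + B →
  m + n - s ^ 2 = -6 * x → s * (n - m) = 8 * y → m * n = -(3 * x ^ 2 + 4 * A) →
  x.natAbs ≤ C * (max A.natAbs B.natAbs) ^ 20

/-- RED: reduction of the quartic. -/
def S_RED : Prop := ∃ C : ℕ, ∀ A B x y : ℤ, ∀ H : ℕ, H = max A.natAbs B.natAbs → 1 ≤ H →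
  y ^ 2 = x ^ 3 + A * x + B → 0 ≤ y → (H : ℤ) ≤ x →
  (∀ u v : ℤ, v ≠ 0 → gq A x y u v ≠ 0) →
  ∃ u₁ v₁ u₂ v₂ : ℤ, u₁ * v₂ - u₂ * v₁ = 1 ∧
    (gq A x y u₁ v₁).natAbs ≤ C * H ^ 2 ∧ (cb A x y u₁ v₁ u₂ v₂).natAbs ≤ C * H ^ 2 ∧
    (cc A x y u₁ v₁ u₂ v₂).natAbs ≤ C * H ^ 2 ∧ (cb A x y u₂ v₂ u₁ v₁).natAbs ≤ C * H ^ 2 ∧
    (gq A x y u₂ v₂).natAbs ≤ C * H ^ 2 ∧
    x.natAbs ≤ C * H * (max v₁.natAbs v₂.natAbs) ^ 4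

/-- HW: Hall's inequality with exponent `1 - ε` for the points whose cubic has its real roots in a
fixed real number field. -/
def S_HW : Prop := ∀ L : IntermediateField ℚ ℝ, FiniteDimensional ℚ L → ∀ ε : ℝ, 0 < ε →
  ∃ c : ℝ, 0 < c ∧ ∀ x y : ℤ, y ^ 2 ≠ x ^ 3 →
    (∀ z : ℝ, z ^ 3 - 3 * x * z + 2 * y = 0 → z ∈ L) →
    c * |(x : ℝ)| ^ (1 - ε) ≤ |((y ^ 2 - x ^ 3 : ℤ) : ℝ)|

end Pool.Agent.W257.HL
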