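import Pool.Agent.W257.R4
import Pool.Agent.W257.G7
import Pool.Agent.W257.HL.Stm

/-!
Hall-Lang for halves in a fixed field: the quartic form as a polynomial in two variables.
-/

set_option autoImplicit false

open Polynomial Finset IntermediateField

namespace Pool.Agent.W257.HL

open Pool.Agent.H322R2

/-- a binary quartic form -/
noncomputable def Gf {R : Type} [CommRing R] (a b c d e : R) : MvPolynomial (Fin 2) R :=
  MvPolynomial.C a * MvPolynomial.X 0 ^ 4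
    + MvPolynomial.C b * (MvPolynomial.X 0 ^ 3 * MvPolynomial.X 1 ^ 1)
    + MvPolynomial.C c * (MvPolynomial.X 0 ^ 2 * MvPolynomial.X 1 ^ 2)
    + MvPolynomial.C d * (MvPolynomial.X 0 ^ 1 * MvPolynomial.X 1 ^ 3)
    + MvPolynomial.C e * MvPolynomial.X 1 ^ 4

lemma Gf_isHom {R : Type} [CommRing R] (a b c d e : R) : (Gf a b c d e).IsHomogeneous 4 := by
  have hX : ∀ (i : Fin 2) (n : ℕ), (MvPolynomial.X i ^ n : MvPolynomial (Fin 2) R).IsHomogeneous n := by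
    intro i n
    simpa using (MvPolynomial.isHomogeneous_X R i).pow n
  have hC : ∀ (r : R) {p : MvPolynomial (Fin 2) R} {n : ℕ}, p.IsHomogeneous n →
      (MvPolynomial.C r * p).IsHomogeneous n := by
    intro r p n hp
    simpa using (MvPolynomial.isHomogeneous_C (Fin 2) r).mul hp
  unfold Gf
  exact ((((hC _ (hX _ _)).add (hC _ ((hX 0 3).mul (hX 1 1)))).add
    (hC _ ((hX 0 2).mul (hX 1 2)))).add (hC _ ((hX 0 1).mul (hX 1 3)))).add (hC _ (hX _ _))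

lemma Gf_map (a b c d e : ℤ) : MvPolynomial.map (Int.castRingHom ℚ) (Gf a b c d e)
    = Gf (a : ℚ) (b : ℚ) (c : ℚ) (d : ℚ) (e : ℚ) := by
  unfold Gf
  simp

lemma Gf_aeval {R A : Type} [CommRing R] [CommRing A] [Algebra R A] (a b c d e : R) (X Y : A) :
    MvPolynomial.aeval ![X, Y] (Gf a b c d e)
      = algebraMap R A a * X ^ 4 + algebraMap R A b * (X ^ 3 * Y)
        + algebraMap R A c * (X ^ 2 * Y ^ 2) + algebraMap R A d * (X * Y ^ 3)
        + algebraMap R A e * Y ^ 4 := by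
  unfold Gf
  simp

lemma Gf_len (a b c d e : ℤ) : len (Gf a b c d e)
    ≤ a.natAbs + b.natAbs + c.natAbs + d.natAbs + e.natAbs := by
  have hX : ∀ (n : ℕ), len (MvPolynomial.X 0 ^ n : MvPolynomial (Fin 2) ℤ) ≤ 1 := by
    intro n
    simpa using len_pow_le _ n 1 len_X0
  have hY : ∀ (n : ℕ), len (MvPolynomial.X 1 ^ n : MvPolynomial (Fin 2) ℤ) ≤ 1 := by
    intro n
    simpa using len_pow_le _ n 1 len_X1
  have hXY : ∀ (n k : ℕ), len (MvPolynomial.X 0 ^ n * MvPolynomial.X 1 ^ k :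
      MvPolynomial (Fin 2) ℤ) ≤ 1 := by
    intro n k
    refine (len_mul_le _ _).trans ?_
    simpa using Nat.mul_le_mul (hX n) (hY k)
  have hC : ∀ (r : ℤ) {p : MvPolynomial (Fin 2) ℤ}, len p ≤ 1 →
      len (MvPolynomial.C r * p) ≤ r.natAbs := by
    intro r p hp
    refine (len_mul_le _ _).trans ?_
    simpa using Nat.mul_le_mul (len_C r) hp
  unfold Gf
  refine (len_add_le _ _).trans (Nat.add_le_add ?_ (hC _ (hY _)))
  refine (len_add_le _ _).trans (Nat.add_le_add ?_ (hC _ (hXY _ _)))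
  refine (len_add_le _ _).trans (Nat.add_le_add ?_ (hC _ (hXY _ _)))
  exact (len_add_le _ _).trans (Nat.add_le_add (hC _ (hX _)) (hC _ (hXY _ _)))

/-- the univariate quartic -/
noncomputable def gp (A x y : ℤ) : ℤ[X] :=
  X ^ 4 - C (6 * x) * X ^ 2 + C (8 * y) * X - C (3 * x ^ 2 + 4 * A)

lemma gp_nd (A x y : ℤ) : (gp A x y).natDegree = 4 := by
  unfold gp
  compute_degree!

lemma gp_monic (A x y : ℤ) : (gp A x y).Monic := by
  unfold gp
  monicity!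

/-- substitution -/
noncomputable def sub2 (u₁ v₁ u₂ v₂ : ℤ) : MvPolynomial (Fin 2) ℚ →ₐ[ℚ] MvPolynomial (Fin 2) ℚ :=
  MvPolynomial.aeval ![MvPolynomial.C (u₁ : ℚ) * MvPolynomial.X 0
    + MvPolynomial.C (u₂ : ℚ) * MvPolynomial.X 1,
    MvPolynomial.C (v₁ : ℚ) * MvPolynomial.X 0 + MvPolynomial.C (v₂ : ℚ) * MvPolynomial.X 1]

lemma sub2_comp {u₁ v₁ u₂ v₂ : ℤ} (h : u₁ * v₂ - u₂ * v₁ = 1) :
    (sub2 u₁ v₁ u₂ v₂).comp (sub2 v₂ (-v₁) (-u₂) u₁) = AlgHom.id ℚ _ := by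
  have hC : ((u₁ : MvPolynomial (Fin 2) ℚ) * (v₂ : MvPolynomial (Fin 2) ℚ)
      - (u₂ : MvPolynomial (Fin 2) ℚ) * (v₁ : MvPolynomial (Fin 2) ℚ)) = 1 := by
    exact_mod_cast congrArg (fun n : ℤ => (n : MvPolynomial (Fin 2) ℚ)) h
  apply MvPolynomial.algHom_ext
  intro i
  fin_cases i
  · simp only [sub2, AlgHom.comp_apply, AlgHom.id_apply, MvPolynomial.aeval_X]
    simp
    linear_combination (MvPolynomial.X 0 : MvPolynomial (Fin 2) ℚ) * hC
  · simp only [sub2, AlgHom.comp_apply, AlgHom.id_apply, MvPolynomial.aeval_X]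
    simp
    linear_combination (MvPolynomial.X 1 : MvPolynomial (Fin 2) ℚ) * hC

lemma sub2_comp' {u₁ v₁ u₂ v₂ : ℤ} (h : u₁ * v₂ - u₂ * v₁ = 1) :
    (sub2 v₂ (-v₁) (-u₂) u₁).comp (sub2 u₁ v₁ u₂ v₂) = AlgHom.id ℚ _ := by
  have := sub2_comp (u₁ := v₂) (v₁ := -v₁) (u₂ := -u₂) (v₂ := u₁) (by linarith)
  simpa using this

lemma irr_Gf {A x y : ℤ} (hirr : Irreducible (gp A x y)) {u₁ v₁ u₂ v₂ : ℤ}
    (h : u₁ * v₂ - u₂ * v₁ = 1) :
    Irreducible (MvPolynomial.map (Int.castRingHom ℚ) (Gf (gq A x y u₁ v₁)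
      (cb A x y u₁ v₁ u₂ v₂) (cc A x y u₁ v₁ u₂ v₂) (cb A x y u₂ v₂ u₁ v₁)
      (gq A x y u₂ v₂))) := by
  have h1 : Irreducible ((gp A x y).map (Int.castRingHom ℚ)) :=
    ((gp_monic A x y).irreducible_iff_irreducible_map_fraction_map (K := ℚ)).1 hirr
  have h2 := homogenize_irr (d := 4) (by rw [(gp_monic A x y).natDegree_map, gp_nd]) h1
  have h3 : homogenize ((gp A x y).map (Int.castRingHom ℚ)) 4
      = Gf (1 : ℚ) 0 (-(6 * x : ℚ)) (8 * y : ℚ) (-(3 * x ^ 2 + 4 * A : ℚ)) := by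
    apply homogenize_eq_of_isHomogeneous (Gf_isHom _ _ _ _ _)
    rw [Gf_aeval]
    have c8 : (C 8 : ℚ[X]) = 8 := map_ofNat _ _
    have c6 : (C 6 : ℚ[X]) = 6 := map_ofNat _ _
    have c3 : (C 3 : ℚ[X]) = 3 := map_ofNat _ _
    have c4 : (C 4 : ℚ[X]) = 4 := map_ofNat _ _
    unfold gp
    simp only [Polynomial.map_add, Polynomial.map_sub, Polynomial.map_mul, Polynomial.map_pow,
      Polynomial.map_X, Polynomial.map_C, Polynomial.algebraMap_eq, map_mul, map_add, map_pow,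
      map_neg, map_one, map_zero, map_ofNat, eq_intCast, map_intCast, Polynomial.map_ofNat,
      Polynomial.map_intCast, c8, c6, c3, c4]
    ring
  rw [h3] at h2
  let e : MvPolynomial (Fin 2) ℚ ≃ₐ[ℚ] MvPolynomial (Fin 2) ℚ :=
    AlgEquiv.ofAlgHom (sub2 u₁ v₁ u₂ v₂) (sub2 v₂ (-v₁) (-u₂) u₁) (sub2_comp h) (sub2_comp' h)
  have h4 := (MulEquiv.irreducible_iff (e : MvPolynomial (Fin 2) ℚ ≃* MvPolynomial (Fin 2) ℚ)).2 h2
  convert h4 using 1
  rw [Gf_map]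
  show _ = sub2 u₁ v₁ u₂ v₂ _
  have c8 : (MvPolynomial.C 8 : MvPolynomial (Fin 2) ℚ) = 8 := map_ofNat _ _
  have c6 : (MvPolynomial.C 6 : MvPolynomial (Fin 2) ℚ) = 6 := map_ofNat _ _
  have c3 : (MvPolynomial.C 3 : MvPolynomial (Fin 2) ℚ) = 3 := map_ofNat _ _
  have c4 : (MvPolynomial.C 4 : MvPolynomial (Fin 2) ℚ) = 4 := map_ofNat _ _
  have c2 : (MvPolynomial.C 2 : MvPolynomial (Fin 2) ℚ) = 2 := map_ofNat _ _
  unfold Gf sub2 gq cb cc
  simp [c8, c6, c3, c4, c2, map_ofNat]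
  ring

end Pool.Agent.W257.HL
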