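import Pool.Agent.W257.HL.A1

/-!
Hall-Lang for halves in a fixed field: the irreducible case.
-/

set_option autoImplicit false

open Polynomial Finset IntermediateField

namespace Pool.Agent.W257.HL

open Pool.Agent.H322R2 Pool.Agent.W257

lemma F_comp (a b c d e : ℤ) :
    MvPolynomial.homogeneousComponent 4 (Gf a b c d e - 1) = Gf a b c d e := by
  have h1 : MvPolynomial.homogeneousComponent 4 (1 : MvPolynomial (Fin 2) ℤ) = 0 := by
    apply MvPolynomial.homogeneousComponent_eq_zero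
    rw [MvPolynomial.totalDegree_one]
    norm_num
  rw [map_sub, h1, sub_zero, MvPolynomial.homogeneousComponent_of_mem
    ((MvPolynomial.mem_homogeneousSubmodule 4 _).2 (Gf_isHom a b c d e)), if_pos rfl]

lemma F_deg {a b c d e : ℤ}
    (hirr : Irreducible (MvPolynomial.map (Int.castRingHom ℚ) (Gf a b c d e))) :
    (Gf a b c d e - 1).totalDegree = 4 := by
  apply le_antisymm
  · refine (MvPolynomial.totalDegree_sub _ _).trans (max_le (Gf_isHom a b c d e).totalDegree_le ?_)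
    rw [MvPolynomial.totalDegree_one]
    norm_num
  · by_contra hcon
    push Not at hcon
    have h1 := F_comp a b c d e
    rw [MvPolynomial.homogeneousComponent_eq_zero _ _ hcon] at h1
    rw [← h1, map_zero] at hirr
    exact not_irreducible_zero hirr

lemma F_irr {a b c d e : ℤ}
    (hirr : Irreducible (MvPolynomial.map (Int.castRingHom ℚ) (Gf a b c d e))) :
    Irreducible (MvPolynomial.map (Int.castRingHom ℚ) (Gf a b c d e - 1)) := by
  have hinj : Function.Injective (Int.castRingHom ℚ) := Int.cast_injective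
  have hd : (MvPolynomial.map (Int.castRingHom ℚ) (Gf a b c d e - 1)).totalDegree = 4 := by
    rw [MvPolynomial.totalDegree, MvPolynomial.support_map_of_injective _ hinj,
      ← MvPolynomial.totalDegree, F_deg hirr]
  have hcm : MvPolynomial.homogeneousComponent 4
      (MvPolynomial.map (Int.castRingHom ℚ) (Gf a b c d e - 1))
      = MvPolynomial.map (Int.castRingHom ℚ) (Gf a b c d e) := by
    conv_rhs => rw [← F_comp a b c d e]
    ext n
    rw [MvPolynomial.coeff_homogeneousComponent, MvPolynomial.coeff_map,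
      MvPolynomial.coeff_map, MvPolynomial.coeff_homogeneousComponent]
    split_ifs <;> simp
  apply irr_of_lead
  · rw [hd]; omega
  · rw [hd, hcm]; exact hirr

lemma no_root {A x y : ℤ} (hirr : Irreducible (gp A x y)) (u v : ℤ) (hv : v ≠ 0) :
    gq A x y u v ≠ 0 := by
  intro h0
  have h1 : Irreducible ((gp A x y).map (Int.castRingHom ℚ)) :=
    ((gp_monic A x y).irreducible_iff_irreducible_map_fraction_map (K := ℚ)).1 hirr
  have hvq : (v : ℚ) ≠ 0 := by exact_mod_cast hv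
  have h2 : ((gp A x y).map (Int.castRingHom ℚ)).IsRoot ((u : ℚ) / v) := by
    have h3 : ((gq A x y u v : ℤ) : ℚ) = 0 := by rw [h0]; simp
    unfold gq at h3
    push_cast at h3
    rw [Polynomial.IsRoot, Polynomial.eval_map]
    unfold gp
    simp only [eval₂_sub, eval₂_add, eval₂_mul, eval₂_pow, eval₂_X, eval₂_C]
    simp only [eq_intCast]
    push_cast
    field_simp
    linear_combination h3
  have h3 := Polynomial.degree_eq_one_of_irreducible_of_root h1 h2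
  rw [Polynomial.degree_map_eq_of_injective Int.cast_injective,
    Polynomial.degree_eq_natDegree (gp_monic A x y).ne_zero, gp_nd] at h3
  norm_num at h3

lemma slope_mem {A x y u₁ v₁ u₂ v₂ : ℤ} (h : u₁ * v₂ - u₂ * v₁ = 1)
    (K : IntermediateField ℚ ℝ)
    (hK : ∀ l : ℝ, l ^ 4 - 6 * x * l ^ 2 + 8 * y * l - (3 * x ^ 2 + 4 * A) = 0 → l ∈ K)
    (t : ℝ) (ht : MvPolynomial.aeval ![1, t] (Gf (gq A x y u₁ v₁)
      (cb A x y u₁ v₁ u₂ v₂) (cc A x y u₁ v₁ u₂ v₂) (cb A x y u₂ v₂ u₁ v₁)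
      (gq A x y u₂ v₂)) = 0) :
    ∃ l ∈ K, l ^ 4 - 6 * x * l ^ 2 + 8 * y * l - (3 * x ^ 2 + 4 * A) = 0 ∧
      l * (v₁ + v₂ * t) = u₁ + u₂ * t ∧ t * (u₂ - l * v₂) = l * v₁ - u₁ ∧
      (u₂ - l * v₂) ≠ 0 ∧ (v₁ + v₂ * t) ≠ 0 := by
  have hR : (u₁ : ℝ) * v₂ - u₂ * v₁ = 1 := by exact_mod_cast h
  rw [Gf_aeval] at ht
  unfold gq cb cc at ht
  simp only [algebraMap_int_eq, eq_intCast] at ht
  push_cast at ht
  obtain ⟨w, hw⟩ : ∃ w : ℝ, w = v₁ + v₂ * t := ⟨_, rfl⟩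
  obtain ⟨z, hz⟩ : ∃ z : ℝ, z = u₁ + u₂ * t := ⟨_, rfl⟩
  have h1 : z ^ 4 - 6 * x * z ^ 2 * w ^ 2 + 8 * y * z * w ^ 3 - (3 * x ^ 2 + 4 * A) * w ^ 4 = 0 := by
    rw [hz, hw]
    linear_combination ht
  have hdet : v₂ * z - u₂ * w = 1 := by
    rw [hz, hw]
    linear_combination hR
  have hw0 : w ≠ 0 := by
    intro h0
    rw [h0] at h1 hdet
    have h2 : z ^ 4 = 0 := by linear_combination h1
    have h3 : z = 0 := by simpa using h2
    rw [h3] at hdet
    simp at hdet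
  have hl : (z / w) ^ 4 - 6 * x * (z / w) ^ 2 + 8 * y * (z / w) - (3 * x ^ 2 + 4 * A) = 0 := by
    field_simp
    linear_combination h1
  have hlw : z / w * w = z := div_mul_cancel₀ _ hw0
  refine ⟨z / w, hK _ hl, hl, ?_, ?_, ?_, ?_⟩
  · rw [← hw, ← hz, hlw]
  · have h5 : z / w * (v₁ + v₂ * t) = u₁ + u₂ * t := by rw [← hw, ← hz, hlw]
    linear_combination -h5
  · intro h0
    have h5 : (u₂ - z / w * v₂) * w = -1 := by
      have : (u₂ - z / w * v₂) * w = u₂ * w - v₂ * (z / w * w) := by ring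
      rw [this, hlw]
      linear_combination -hdet
    rw [h0, zero_mul] at h5
    norm_num at h5
  · rw [← hw]; exact hw0

lemma slope_mem' {A x y u₁ v₁ u₂ v₂ : ℤ} (h : u₁ * v₂ - u₂ * v₁ = 1)
    (K : IntermediateField ℚ ℝ)
    (hK : ∀ l : ℝ, l ^ 4 - 6 * x * l ^ 2 + 8 * y * l - (3 * x ^ 2 + 4 * A) = 0 → l ∈ K)
    (t : ℝ) (ht : MvPolynomial.aeval ![1, t] (Gf (gq A x y u₁ v₁)
      (cb A x y u₁ v₁ u₂ v₂) (cc A x y u₁ v₁ u₂ v₂) (cb A x y u₂ v₂ u₁ v₁)
      (gq A x y u₂ v₂)) = 0) : t ∈ K := by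
  obtain ⟨l, hl, -, -, h2, h3, -⟩ := slope_mem h K hK t ht
  have h4 : t = (l * v₁ - u₁) / (u₂ - l * v₂) := by
    rw [eq_div_iff h3, h2]
  rw [h4]
  exact K.div_mem (K.sub_mem (K.mul_mem hl (intCast_mem K v₁)) (intCast_mem K u₁))
    (K.sub_mem (intCast_mem K u₂) (K.mul_mem hl (intCast_mem K v₂)))

/-- the exponent -/
def eE : ℕ := eR 4 4

theorem irr_bound (hR : S_RED) (K : IntermediateField ℚ ℝ) (hK : FiniteDimensional ℚ K) :
    ∃ c : ℕ, ∀ A B x y : ℤ, ∀ H : ℕ, H = max A.natAbs B.natAbs → 1 ≤ H →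
      y ^ 2 = x ^ 3 + A * x + B → 0 ≤ y → (H : ℤ) ≤ x → Irreducible (gp A x y) →
      (∀ l : ℝ, l ^ 4 - 6 * x * l ^ 2 + 8 * y * l - (3 * x ^ 2 + 4 * A) = 0 → l ∈ K) →
      x.natAbs ≤ c * H ^ (1 + 8 * eE) := by
  obtain ⟨C, hC⟩ := hR
  obtain ⟨c0, -, hc0⟩ := class_main K hK 4
  refine ⟨C * (c0 * (5 * (5 * C + 1))) ^ (4 * eE), ?_⟩
  intro A B x y H hH hH1 hxy hy hHx hirr hroots
  obtain ⟨u₁, v₁, u₂, v₂, hdet, ha, hb, hc, hd, he, hx⟩ :=
    hC A B x y H hH hH1 hxy hy hHx (fun u v hv => no_root hirr u v hv)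
  have hG := irr_Gf hirr hdet
  obtain ⟨G, hGdef⟩ : ∃ G, G = Gf (gq A x y u₁ v₁) (cb A x y u₁ v₁ u₂ v₂)
    (cc A x y u₁ v₁ u₂ v₂) (cb A x y u₂ v₂ u₁ v₁) (gq A x y u₂ v₂) := ⟨_, rfl⟩
  have hdeg : (G - 1).totalDegree = 4 := by rw [hGdef]; exact F_deg hG
  have hcomp : MvPolynomial.homogeneousComponent (G - 1).totalDegree (G - 1) = G := by
    rw [hdeg, hGdef]; exact F_comp _ _ _ _ _
  have hFirr : Irreducible (MvPolynomial.map (Int.castRingHom ℚ) (G - 1)) := by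
    rw [hGdef]; exact F_irr hG
  have hev : MvPolynomial.eval ![v₂, -v₁] (G - 1) = 0 := by
    have h1 : MvPolynomial.eval ![v₂, -v₁] G = 1 := by
      have h2 : MvPolynomial.eval ![v₂, -v₁] G = gq A x y u₁ v₁ * v₂ ^ 4
          + cb A x y u₁ v₁ u₂ v₂ * (v₂ ^ 3 * -v₁) + cc A x y u₁ v₁ u₂ v₂ * (v₂ ^ 2 * (-v₁) ^ 2)
          + cb A x y u₂ v₂ u₁ v₁ * (v₂ * (-v₁) ^ 3) + gq A x y u₂ v₂ * (-v₁) ^ 4 := by
        rw [hGdef]
        unfold Gf
        simp
      have h3 := gq_subst A x y u₁ v₁ u₂ v₂ v₂ (-v₁)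
      have h4 : u₁ * v₂ + u₂ * (-v₁) = 1 := by linarith
      have h5 : v₁ * v₂ + v₂ * (-v₁) = 0 := by ring
      rw [h4, h5] at h3
      have h6 : gq A x y 1 0 = 1 := by unfold gq; ring
      rw [h6] at h3
      rw [h2]
      linear_combination -h3
    rw [map_sub, h1, map_one, sub_self]
  obtain ⟨h1, h2⟩ := hc0 (G - 1) (by rw [hdeg]; norm_num) (by rw [hdeg]) hFirr (by
    rw [hcomp, hGdef]; exact hG.squarefree) (by
    intro t ht hfin
    rw [hcomp, hGdef] at ht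
    have htK := slope_mem' hdet K hroots t ht
    have hle : ℚ⟮t⟯ ≤ K := by
      rw [adjoin_simple_le_iff]; exact htK
    rw [inf_eq_left.2 hle, hfin, hdeg]
    norm_num) v₂ (-v₁) hev
  rw [hdeg, Int.natAbs_neg] at h2
  rw [hdeg] at h1
  have hlen : len (G - 1) ≤ (5 * C + 1) * H ^ 2 := by
    refine (len_sub_le _ _).trans ?_
    have h3 : len (1 : MvPolynomial (Fin 2) ℤ) ≤ 1 := by
      have := len_C 1
      simpa using this
    have h4 : len G ≤ 5 * (C * H ^ 2) := by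
      rw [hGdef]
      refine (Gf_len _ _ _ _ _).trans ?_
      omega
    have h5 : 1 ≤ H ^ 2 := Nat.one_le_pow _ _ (by omega)
    nlinarith
  have hmax : max v₁.natAbs v₂.natAbs ≤ (c0 * (5 * (5 * C + 1)) * H ^ 2) ^ eE := by
    have h6 : (c0 * ((4 + 1) * len (G - 1))) ^ (eR 4 4) ≤ (c0 * (5 * (5 * C + 1)) * H ^ 2) ^ eE := by
      unfold eE
      apply Nat.pow_le_pow_left
      calc c0 * ((4 + 1) * len (G - 1)) ≤ c0 * ((4 + 1) * ((5 * C + 1) * H ^ 2)) := by gcongr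
        _ = c0 * (5 * (5 * C + 1)) * H ^ 2 := by ring
    exact max_le (h2.trans h6) (h1.trans h6)
  refine hx.trans ?_
  calc C * H * (max v₁.natAbs v₂.natAbs) ^ 4
      ≤ C * H * ((c0 * (5 * (5 * C + 1)) * H ^ 2) ^ eE) ^ 4 := by gcongr
    _ = C * (c0 * (5 * (5 * C + 1))) ^ (4 * eE) * H ^ (1 + 8 * eE) := by
        rw [← pow_mul, mul_pow, ← pow_mul, pow_add, pow_one]
        have e1 : eE * 4 = 4 * eE := by ring
        have e2 : 2 * (eE * 4) = 8 * eE := by ring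
        rw [e2, e1]
        ring

end Pool.Agent.W257.HL
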