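import Pool.Agent.W257.HL.A2

/-!
Hall-Lang for halves in a fixed field: the combination of the cases.
-/

set_option autoImplicit false

open Polynomial Finset IntermediateField

namespace Pool.Agent.W257.HL

lemma classify (A x y : ℤ) : Irreducible (gp A x y) ∨
    (∃ l : ℤ, l ^ 4 - 6 * x * l ^ 2 + 8 * y * l - (3 * x ^ 2 + 4 * A) = 0) ∨
    (∃ s m n : ℤ, m + n - s ^ 2 = -6 * x ∧ s * (n - m) = 8 * y ∧
      m * n = -(3 * x ^ 2 + 4 * A)) := by
  by_cases hirr : Irreducible (gp A x y)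
  · exact Or.inl hirr
  right
  have hev : ∀ z : ℤ, (gp A x y).eval z
      = z ^ 4 - 6 * x * z ^ 2 + 8 * y * z - (3 * x ^ 2 + 4 * A) := by
    intro z
    unfold gp
    simp
  rw [(gp_monic A x y).irreducible_iff_lt_natDegree_lt (by
    intro h1
    have h2 := gp_nd A x y
    rw [h1, natDegree_one] at h2
    omega)] at hirr
  push Not at hirr
  obtain ⟨q, hq, hqd, k, hk⟩ := hirr
  rw [gp_nd, Finset.mem_Ioc] at hqd
  have hkm : k.Monic := by
    have h1 := gp_monic A x y
    rw [hk] at h1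
    exact hq.of_mul_monic_left h1
  have hsum : q.natDegree + k.natDegree = 4 := by
    rw [← gp_nd A x y, hk, hq.natDegree_mul hkm]
  have hmul : ∀ z : ℤ, q.eval z * k.eval z
      = z ^ 4 - 6 * x * z ^ 2 + 8 * y * z - (3 * x ^ 2 + 4 * A) := by
    intro z
    rw [← hev z, hk, eval_mul]
  rcases (by omega : q.natDegree = 1 ∨ q.natDegree = 2) with h1 | h2
  · left
    refine ⟨-q.coeff 0, ?_⟩
    rw [← hmul]
    have h3 : q.eval (-q.coeff 0) = 0 := by
      rw [Polynomial.eval_eq_sum_range, h1, Finset.sum_range_succ, Finset.sum_range_one]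
      have h4 : q.coeff 1 = 1 := by rw [← h1]; exact hq.coeff_natDegree
      rw [h4]
      ring
    rw [h3, zero_mul]
  · right
    have hk2 : k.natDegree = 2 := by omega
    have hqe : ∀ z : ℤ, q.eval z = z ^ 2 + q.coeff 1 * z + q.coeff 0 := by
      intro z
      rw [Polynomial.eval_eq_sum_range, h2, Finset.sum_range_succ, Finset.sum_range_succ,
        Finset.sum_range_one]
      have h4 : q.coeff 2 = 1 := by rw [← h2]; exact hq.coeff_natDegree
      rw [h4]
      ring
    have hke : ∀ z : ℤ, k.eval z = z ^ 2 + k.coeff 1 * z + k.coeff 0 := by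
      intro z
      rw [Polynomial.eval_eq_sum_range, hk2, Finset.sum_range_succ, Finset.sum_range_succ,
        Finset.sum_range_one]
      have h4 : k.coeff 2 = 1 := by rw [← hk2]; exact hkm.coeff_natDegree
      rw [h4]
      ring
    obtain ⟨s, hs⟩ : ∃ s, s = q.coeff 1 := ⟨_, rfl⟩
    obtain ⟨m, hm⟩ : ∃ m, m = q.coeff 0 := ⟨_, rfl⟩
    obtain ⟨s', hs'⟩ : ∃ s', s' = k.coeff 1 := ⟨_, rfl⟩
    obtain ⟨n, hn⟩ : ∃ n, n = k.coeff 0 := ⟨_, rfl⟩
    rw [← hs, ← hm] at hqe
    rw [← hs', ← hn] at hke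
    have e0 := hmul 0
    have e1 := hmul 1
    have e2 := hmul (-1)
    have e3 := hmul 2
    rw [hqe, hke] at e0 e1 e2 e3
    have f3 : s' = -s := by linarith [e0, e1, e2, e3]
    rw [f3] at e0 e1 e2 e3
    refine ⟨s, m, n, ?_, ?_, ?_⟩
    · linarith [e0, e1, e2, e3]
    · linarith [e0, e1, e2, e3]
    · linarith [e0, e1, e2, e3]

end Pool.Agent.W257.HL
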