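import Pool.Agent.W257.HL.A3

/-!
Hall-Lang for halves in a fixed field: the combination of the cases.
-/

set_option autoImplicit false

open Polynomial Finset IntermediateField

namespace Pool.Agent.W257.HL

lemma H_pos {A B : ℤ} (hD : 4 * A ^ 3 + 27 * B ^ 2 ≠ 0) : 1 ≤ max A.natAbs B.natAbs := by
  by_contra hcon
  push Not at hcon
  have h1 : max A.natAbs B.natAbs = 0 := by omega
  have h2 : A = 0 := by
    have := le_max_left A.natAbs B.natAbs
    omega
  have h3 : B = 0 := by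
    have := le_max_right A.natAbs B.natAbs
    omega
  rw [h2, h3] at hD
  norm_num at hD

lemma lower_x {A B x y : ℤ} {H : ℕ} (hH : H = max A.natAbs B.natAbs) (h1 : 1 ≤ H)
    (hE : y ^ 2 = x ^ 3 + A * x + B) : -(2 * (H : ℤ)) ≤ x := by
  by_contra hcon
  push Not at hcon
  have hA : |A| ≤ H := by
    rw [hH, Int.abs_eq_natAbs]
    exact_mod_cast le_max_left _ _
  have hB : |B| ≤ H := by
    rw [hH, Int.abs_eq_natAbs]
    exact_mod_cast le_max_right _ _
  obtain ⟨hA1, hA2⟩ := abs_le.1 hA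
  obtain ⟨hB1, hB2⟩ := abs_le.1 hB
  obtain ⟨t, ht⟩ : ∃ t : ℤ, t = -x := ⟨_, rfl⟩
  have hx : x = -t := by omega
  have hHz : (1 : ℤ) ≤ H := by exact_mod_cast h1
  have ht2 : 2 * (H : ℤ) < t := by omega
  have h3 : 0 ≤ y ^ 2 := sq_nonneg y
  rw [hE, hx] at h3
  have h4 : A * (-t) ≤ H * t := by nlinarith
  have h5 : (H : ℤ) * t + H ≤ 2 * (H * t) := by nlinarith
  have h6 : 2 * ((H : ℤ) * t) < t ^ 2 := by nlinarith
  have h7 : t ^ 2 ≤ t ^ 3 := by nlinarith [sq_nonneg t]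
  have h8 : (-t) ^ 3 = -t ^ 3 := by ring
  rw [h8] at h3
  linarith

/-- the bound for `x` -/
theorem bound_x (hR : S_RED) (hL : S_LIN) (hQ : S_QUAD) (K : IntermediateField ℚ ℝ)
    (hK : FiniteDimensional ℚ K) :
    ∃ c : ℕ, 1 ≤ c ∧ ∀ A B x y : ℤ, 4 * A ^ 3 + 27 * B ^ 2 ≠ 0 → y ^ 2 = x ^ 3 + A * x + B →
      (∀ l : ℝ, l ^ 4 - 6 * x * l ^ 2 + 8 * y * l - (3 * x ^ 2 + 4 * A) = 0 → l ∈ K) →
      x.natAbs ≤ c * (max A.natAbs B.natAbs) ^ (20 + 8 * eE) := by
  obtain ⟨c1, hc1⟩ := irr_bound hR K hK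
  obtain ⟨c2, hc2⟩ := hL
  obtain ⟨c3, hc3⟩ := hQ
  refine ⟨2 + c1 + c2 + c3, by omega, ?_⟩
  intro A B x y hD hE hroots
  have h1 := H_pos hD
  have key : ∀ (c k : ℕ), c ≤ 2 + c1 + c2 + c3 → k ≤ 20 + 8 * eE →
      x.natAbs ≤ c * (max A.natAbs B.natAbs) ^ k →
      x.natAbs ≤ (2 + c1 + c2 + c3) * (max A.natAbs B.natAbs) ^ (20 + 8 * eE) := by
    intro c k hc hk h
    exact h.trans (Nat.mul_le_mul hc (Nat.pow_le_pow_right h1 hk))
  obtain ⟨H, hH⟩ : ∃ H : ℕ, H = max A.natAbs B.natAbs := ⟨_, rfl⟩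
  have h1' : 1 ≤ H := by rw [hH]; exact h1
  by_cases hx : (H : ℤ) ≤ x
  · rcases classify A x y with hirr | ⟨l, hl⟩ | ⟨s, m, n, e1, e2, e3⟩
    · by_cases hy : 0 ≤ y
      · exact key c1 (1 + 8 * eE) (by omega) (by omega) (hH ▸ hc1 A B x y H hH h1' hE hy hx hirr hroots)
      · have hirr' : Irreducible (gp A x (-y)) := by
          have e : gp A x (-y) = (gp A x y).comp (-X) := by
            unfold gp
            simp
            ring
          rw [e]
          have e2 : (gp A x y).comp (-X) = Polynomial.algEquivAevalNegX (gp A x y) := by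
            rw [Polynomial.algEquivAevalNegX_apply]
            rfl
          rw [e2]
          exact (MulEquiv.irreducible_iff (Polynomial.algEquivAevalNegX (R := ℤ) :
            ℤ[X] ≃* ℤ[X])).2 hirr
        refine key c1 (1 + 8 * eE) (by omega) (by omega) (hH ▸ hc1 A B x (-y) H hH h1'
          (by rw [neg_sq]; exact hE) (by omega) hx hirr' ?_)
        intro l hl
        have h2 := hroots (-l) (by
          push_cast at hl
          linear_combination hl)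
        simpa using K.neg_mem h2
    · exact key c2 20 (by omega) (by omega) (hc2 A B x y l hD hE hl)
    · exact key c3 20 (by omega) (by omega) (hc3 A B x y s m n hD hE e1 e2 e3)
  · have h2 := lower_x hH h1' hE
    refine key 2 1 (by omega) (by omega) ?_
    rw [pow_one, ← hH]
    omega

lemma y_of_x {A B x y : ℤ} {N : ℕ} (hE : y ^ 2 = x ^ 3 + A * x + B)
    (hx : x.natAbs ≤ N) (hN : max A.natAbs B.natAbs ≤ N) : y.natAbs ≤ 2 * N ^ 2 := by
  have hA : |A| ≤ N := by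
    rw [Int.abs_eq_natAbs]
    exact_mod_cast (le_max_left _ _).trans hN
  have hB : |B| ≤ N := by
    rw [Int.abs_eq_natAbs]
    exact_mod_cast (le_max_right _ _).trans hN
  have hX : |x| ≤ N := by
    rw [Int.abs_eq_natAbs]
    exact_mod_cast hx
  have hN0 : (0 : ℤ) ≤ N := by positivity
  have h1 : |y| ^ 2 ≤ (N : ℤ) ^ 3 + N * N + N := by
    rw [sq_abs]
    calc y ^ 2 ≤ |y ^ 2| := le_abs_self _
      _ = |x ^ 3 + A * x + B| := by rw [hE]
      _ ≤ |x ^ 3| + |A * x| + |B| := (abs_add_le _ _).trans (by gcongr; exact abs_add_le _ _)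
      _ = |x| ^ 3 + |A| * |x| + |B| := by rw [abs_pow, abs_mul]
      _ ≤ _ := by gcongr
  have h2 : (N : ℤ) ^ 3 + N * N + N ≤ (2 * N ^ 2) ^ 2 := by
    have e1 : (N : ℤ) ≤ N ^ 4 := by exact_mod_cast Nat.le_self_pow (by norm_num) N
    have e2 : (N : ℤ) ^ 3 ≤ N ^ 4 := by
      by_cases h : N = 0
      · rw [h]; norm_num
      · exact_mod_cast Nat.pow_le_pow_right (by omega) (by norm_num)
    have e3 : (N : ℤ) * N ≤ N ^ 4 := by
      by_cases h : N = 0
      · rw [h]; norm_num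
      · have : N ^ 2 ≤ N ^ 4 := Nat.pow_le_pow_right (by omega) (by norm_num)
        rw [← sq]
        exact_mod_cast this
    have e4 : (2 * (N : ℤ) ^ 2) ^ 2 = 4 * N ^ 4 := by ring
    have e5 : (0 : ℤ) ≤ N ^ 4 := by positivity
    rw [e4]
    linarith
  have h3 : |y| ≤ 2 * (N : ℤ) ^ 2 := le_of_sq_le_sq (h1.trans h2) (by positivity)
  rw [Int.abs_eq_natAbs] at h3
  exact_mod_cast h3

/-- The Hall-Lang conjecture with an absolute exponent, for all integral points of all curves whose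
quartic has all its real roots in a fixed real number field. -/
theorem main_a (hR : S_RED) (hL : S_LIN) (hQ : S_QUAD) (K : IntermediateField ℚ ℝ)
    (hK : FiniteDimensional ℚ K) :
    ∃ c : ℕ, ∀ A B x y : ℤ, 4 * A ^ 3 + 27 * B ^ 2 ≠ 0 → y ^ 2 = x ^ 3 + A * x + B →
      (∀ l : ℝ, l ^ 4 - 6 * x * l ^ 2 + 8 * y * l - (3 * x ^ 2 + 4 * A) = 0 → l ∈ K) →
      max x.natAbs y.natAbs ≤ c * (max A.natAbs B.natAbs) ^ (10 ^ 12 * 8 ^ 43) := by
  obtain ⟨c, hc1, hc⟩ := bound_x hR hL hQ K hK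
  refine ⟨2 * c ^ 2, ?_⟩
  intro A B x y hD hE hroots
  have h1 := H_pos hD
  obtain ⟨H, hH⟩ : ∃ H : ℕ, H = max A.natAbs B.natAbs := ⟨_, rfl⟩
  have hx := hc A B x y hD hE hroots
  rw [← hH] at hx h1 ⊢
  have hHN : H ≤ c * H ^ (20 + 8 * eE) := by
    calc H = 1 * H ^ 1 := by ring
      _ ≤ c * H ^ (20 + 8 * eE) := Nat.mul_le_mul hc1 (Nat.pow_le_pow_right h1 (by omega))
  have hy := y_of_x hE hx (hH ▸ hHN)
  have hexp : (20 + 8 * eE) * 2 ≤ 10 ^ 12 * 8 ^ 43 := by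
    have : eE = 10 ^ 10 * 8 ^ 43 := by
      unfold eE
      rw [Pool.Agent.W257.eR]
      norm_num
    rw [this]
    norm_num
  have h2 : 2 * (c * H ^ (20 + 8 * eE)) ^ 2 ≤ 2 * c ^ 2 * H ^ (10 ^ 12 * 8 ^ 43) := by
    rw [mul_pow, ← pow_mul, ← mul_assoc]
    exact Nat.mul_le_mul_left _ (Nat.pow_le_pow_right h1 hexp)
  refine max_le (hx.trans (le_trans ?_ h2)) (hy.trans h2)
  have h3 : c * H ^ (20 + 8 * eE) ≤ (c * H ^ (20 + 8 * eE)) ^ 2 := Nat.le_self_pow (by norm_num) _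
  omega

end Pool.Agent.W257.HL
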