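import Pool.Agent.W257.HL.A4
import Pool.Agent.W257.HL.Stm2

/-!
Hall-Lang: repulsion between integral points with halves in the same field, with absolute constants.
-/

set_option autoImplicit false

open Polynomial Finset IntermediateField

namespace Pool.Agent.W257.HL

open Pool.Agent.H322R2 Pool.Agent.W257

theorem red_of_red2 (h : S_RED2) : S_RED := by
  obtain ⟨C, hC⟩ := h
  refine ⟨C, ?_⟩
  intro A B x y H hH h1 hE hy hx hv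
  obtain ⟨u₁, v₁, u₂, v₂, e0, e1, e2, e3, e4, e5, e6, -⟩ := hC A B x y H hH h1 hE hy hx hv
  exact ⟨u₁, v₁, u₂, v₂, e0, e1, e2, e3, e4, e5, e6⟩

lemma data {C : ℕ} (hC : ∀ A B x y : ℤ, ∀ H : ℕ, H = max A.natAbs B.natAbs → 1 ≤ H →
    y ^ 2 = x ^ 3 + A * x + B → 0 ≤ y → (H : ℤ) ≤ x →
    (∀ u v : ℤ, v ≠ 0 → gq A x y u v ≠ 0) →
    ∃ u₁ v₁ u₂ v₂ : ℤ, u₁ * v₂ - u₂ * v₁ = 1 ∧
      (gq A x y u₁ v₁).natAbs ≤ C * H ^ 2 ∧ (cb A x y u₁ v₁ u₂ v₂).natAbs ≤ C * H ^ 2 ∧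
      (cc A x y u₁ v₁ u₂ v₂).natAbs ≤ C * H ^ 2 ∧ (cb A x y u₂ v₂ u₁ v₁).natAbs ≤ C * H ^ 2 ∧
      (gq A x y u₂ v₂).natAbs ≤ C * H ^ 2 ∧
      x.natAbs ≤ C * H * (max v₁.natAbs v₂.natAbs) ^ 4 ∧
      max v₁.natAbs v₂.natAbs ≤ C * H * x.natAbs)
    (A B x y : ℤ) (H : ℕ) (hH : H = max A.natAbs B.natAbs) (hH1 : 1 ≤ H)
    (hxy : y ^ 2 = x ^ 3 + A * x + B) (hy : 0 ≤ y) (hHx : (H : ℤ) ≤ x)
    (hirr : Irreducible (gp A x y)) :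
    ∃ (F : MvPolynomial (Fin 2) ℤ) (p q : ℤ), F.totalDegree = 4 ∧
      Irreducible (MvPolynomial.map (Int.castRingHom ℚ) F) ∧
      Squarefree (MvPolynomial.map (Int.castRingHom ℚ)
        (MvPolynomial.homogeneousComponent 4 F)) ∧
      MvPolynomial.eval ![p, q] F = 0 ∧ len F ≤ (5 * C + 1) * H ^ 2 ∧
      x.natAbs ≤ C * H * (max p.natAbs q.natAbs) ^ 4 ∧
      max p.natAbs q.natAbs ≤ C * H * x.natAbs ∧
      (∀ t : ℝ, MvPolynomial.aeval ![1, t] (MvPolynomial.homogeneousComponent 4 F) = 0 →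
        ∃ l : ℝ, l ^ 4 - 6 * x * l ^ 2 + 8 * y * l - (3 * x ^ 2 + 4 * A) = 0 ∧
          l ∈ ℚ⟮t⟯ ∧ t ∈ ℚ⟮l⟯) := by
  obtain ⟨u₁, v₁, u₂, v₂, hdet, ha, hb, hc, hd, he, hx, hx2⟩ :=
    hC A B x y H hH hH1 hxy hy hHx (fun u v hv => no_root hirr u v hv)
  have hG := irr_Gf hirr hdet
  obtain ⟨G, hGdef⟩ : ∃ G, G = Gf (gq A x y u₁ v₁) (cb A x y u₁ v₁ u₂ v₂)
    (cc A x y u₁ v₁ u₂ v₂) (cb A x y u₂ v₂ u₁ v₁) (gq A x y u₂ v₂) := ⟨_, rfl⟩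
  have hdeg : (G - 1).totalDegree = 4 := by rw [hGdef]; exact F_deg hG
  have hcomp : MvPolynomial.homogeneousComponent 4 (G - 1) = G := by
    rw [hGdef]; exact F_comp _ _ _ _ _
  have hFirr : Irreducible (MvPolynomial.map (Int.castRingHom ℚ) (G - 1)) := by
    rw [hGdef]; exact F_irr hG
  have hev : MvPolynomial.eval ![v₂, -v₁] (G - 1) = 0 := by
    have h1 : MvPolynomial.eval ![v₂, -v₁] G = 1 := by
      have h2 : MvPolynomial.eval ![v₂, -v₁] G = gq A x y u₁ v₁ * v₂ ^ 4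
          + cb A x y u₁ v₁ u₂ v₂ * (v₂ ^ 3 * -v₁) + cc A x y u₁ v₁ u₂ v₂ * (v₂ ^ 2 * (-v₁) ^ 2)
          + cb A x y u₂ v₂ u₁ v₁ * (v₂ * (-v₁) ^ 3) + gq A x y u₂ v₂ * (-v₁) ^ 4 := by
        rw [hGdef]
        unfold Gf
        simp
      have h3 := gq_subst A x y u₁ v₁ u₂ v₂ v₂ (-v₁)
      have h4 : u₁ * v₂ + u₂ * (-v₁) = 1 := by linarith
      have h5 : v₁ * v₂ + v₂ * (-v₁) = 0 := by ring
      rw [h4, h5] at h3
      have h6 : gq A x y 1 0 = 1 := by unfold gq; ring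
      rw [h6] at h3
      rw [h2]
      linear_combination -h3
    rw [map_sub, h1, map_one, sub_self]
  have hlen : len (G - 1) ≤ (5 * C + 1) * H ^ 2 := by
    refine (len_sub_le _ _).trans ?_
    have h3 : len (1 : MvPolynomial (Fin 2) ℤ) ≤ 1 := by
      have := len_C 1
      simpa using this
    have h4 : len G ≤ 5 * (C * H ^ 2) := by
      rw [hGdef]
      refine (Gf_len _ _ _ _ _).trans ?_
      omega
    have h5 : 1 ≤ H ^ 2 := Nat.one_le_pow _ _ (by omega)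
    nlinarith
  refine ⟨G - 1, v₂, -v₁, hdeg, hFirr, ?_, hev, hlen, ?_, ?_, ?_⟩
  · rw [hcomp, hGdef]; exact hG.squarefree
  · rw [Int.natAbs_neg, max_comm]; exact hx
  · rw [Int.natAbs_neg, max_comm]; exact hx2
  · intro t ht
    rw [hcomp, hGdef] at ht
    obtain ⟨l, -, hl, h1, h2, h3, h4⟩ := slope_mem hdet ⊤ (fun l _ => mem_top) t ht
    refine ⟨l, hl, ?_, ?_⟩
    · have h5 : l = (u₁ + u₂ * t) / (v₁ + v₂ * t) := by
        rw [eq_div_iff h4, h1]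
      rw [h5]
      have ht2 := mem_adjoin_simple_self ℚ t
      exact (ℚ⟮t⟯).div_mem ((ℚ⟮t⟯).add_mem (intCast_mem _ u₁) ((ℚ⟮t⟯).mul_mem (intCast_mem _ u₂) ht2))
        ((ℚ⟮t⟯).add_mem (intCast_mem _ v₁) ((ℚ⟮t⟯).mul_mem (intCast_mem _ v₂) ht2))
    · have h5 : t = (l * v₁ - u₁) / (u₂ - l * v₂) := by
        rw [eq_div_iff h3, h2]
      rw [h5]
      have ht2 := mem_adjoin_simple_self ℚ l
      exact (ℚ⟮l⟯).div_mem ((ℚ⟮l⟯).sub_mem ((ℚ⟮l⟯).mul_mem ht2 (intCast_mem _ v₁)) (intCast_mem _ u₁))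
        ((ℚ⟮l⟯).sub_mem (intCast_mem _ u₂) ((ℚ⟮l⟯).mul_mem ht2 (intCast_mem _ v₂)))

lemma irr_neg {A x y : ℤ} (hirr : Irreducible (gp A x y)) : Irreducible (gp A x (-y)) := by
  have e : gp A x (-y) = (gp A x y).comp (-X) := by
    unfold gp
    simp
    ring
  rw [e]
  have e2 : (gp A x y).comp (-X) = Polynomial.algEquivAevalNegX (gp A x y) := by
    rw [Polynomial.algEquivAevalNegX_apply]
    rfl
  rw [e2]
  exact (MulEquiv.irreducible_iff (Polynomial.algEquivAevalNegX (R := ℤ) :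
    ℤ[X] ≃* ℤ[X])).2 hirr

/-- repulsion, bound for `x`, for a first point with irreducible quartic and `y₁ ≥ 0` -/
theorem bound_b (hR : S_RED2) (hL : S_LIN) (hQ : S_QUAD) :
    ∃ C : ℕ, 2 ≤ C ∧ ∀ A₁ B₁ x₁ y₁ : ℤ, ∀ H₁ : ℕ, H₁ = max A₁.natAbs B₁.natAbs → 1 ≤ H₁ →
      y₁ ^ 2 = x₁ ^ 3 + A₁ * x₁ + B₁ → 0 ≤ y₁ → (H₁ : ℤ) ≤ x₁ → Irreducible (gp A₁ x₁ y₁) →
      (C * H₁) ^ (1 + 8 * eE) < x₁.natAbs →
      ∃ l₁ : ℝ, l₁ ^ 4 - 6 * x₁ * l₁ ^ 2 + 8 * y₁ * l₁ - (3 * x₁ ^ 2 + 4 * A₁) = 0 ∧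
        ∀ A B x y : ℤ, 4 * A ^ 3 + 27 * B ^ 2 ≠ 0 → y ^ 2 = x ^ 3 + A * x + B →
        (∀ l : ℝ, l ^ 4 - 6 * x * l ^ 2 + 8 * y * l - (3 * x ^ 2 + 4 * A) = 0 → l ∈ ℚ⟮l₁⟯) →
        x.natAbs ≤ (C * x₁.natAbs * (max A.natAbs B.natAbs)) ^ (20 + 8 * eE) := by
  obtain ⟨C, hC⟩ := hR
  obtain ⟨c2, hc2⟩ := hL
  obtain ⟨c3, hc3⟩ := hQ
  refine ⟨2 + (25 * C + 5) + c2 + c3, by omega, ?_⟩
  obtain ⟨D, hDdef⟩ : ∃ D, D = 2 + (25 * C + 5) + c2 + c3 := ⟨_, rfl⟩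
  rw [← hDdef]
  intro A₁ B₁ x₁ y₁ H₁ hH₁ h1₁ hE₁ hy₁ hx₁ hirr₁ hbig
  obtain ⟨F₁, p₁, q₁, f1, f2, f3, f4, f5, f6, f7, f8⟩ :=
    data hC A₁ B₁ x₁ y₁ H₁ hH₁ h1₁ hE₁ hy₁ hx₁ hirr₁
  obtain ⟨m, hm⟩ : ∃ m, m = max p₁.natAbs q₁.natAbs := ⟨_, rfl⟩
  rw [← hm] at f6 f7
  obtain ⟨X₁, hX₁⟩ : ∃ X₁, X₁ = x₁.natAbs := ⟨_, rfl⟩
  rw [← hX₁] at f6 f7 hbig ⊢
  have hX1 : 1 ≤ X₁ := by omega
  have hHX : H₁ ≤ X₁ := by omega
  have hbig2 : ((4 + 1) * len F₁) ^ (eR 4 4) < m := by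
    by_contra hcon
    push Not at hcon
    have g1 : (4 + 1) * len F₁ ≤ (D * H₁) ^ 2 := by
      calc (4 + 1) * len F₁ ≤ (4 + 1) * ((5 * C + 1) * H₁ ^ 2) := Nat.mul_le_mul_left _ f5
        _ = (25 * C + 5) * H₁ ^ 2 := by ring
        _ ≤ D ^ 2 * H₁ ^ 2 := by
            apply Nat.mul_le_mul_right
            have : D ≤ D ^ 2 := Nat.le_self_pow (by norm_num) _
            omega
        _ = (D * H₁) ^ 2 := by ring
    have g2 : m ≤ ((D * H₁) ^ 2) ^ eE := hcon.trans (Nat.pow_le_pow_left g1 _)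
    have g3 : X₁ ≤ (D * H₁) ^ (1 + 8 * eE) := by
      calc X₁ ≤ C * H₁ * m ^ 4 := f6
        _ ≤ D * H₁ * (((D * H₁) ^ 2) ^ eE) ^ 4 := by
            apply Nat.mul_le_mul (Nat.mul_le_mul_right _ (by omega)) (Nat.pow_le_pow_left g2 _)
        _ = (D * H₁) ^ (1 + 8 * eE) := by
            rw [← pow_mul, ← pow_mul, pow_add, pow_one]
            congr 2
    omega
  obtain ⟨t₁, g1, g2, g3⟩ := repel2 (by norm_num) (by norm_num) F₁ f1.symm f2 f3 p₁ q₁ f4 m hm hbig2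
  obtain ⟨l₁, k1, k2, k3⟩ := f8 t₁ g1
  refine ⟨l₁, k1, ?_⟩
  have hfld : ℚ⟮l₁⟯ = ℚ⟮t₁⟯ :=
    le_antisymm (adjoin_simple_le_iff.2 k2) (adjoin_simple_le_iff.2 k3)
  have main : ∀ A B x y : ℤ, ∀ H : ℕ, H = max A.natAbs B.natAbs → 1 ≤ H →
      y ^ 2 = x ^ 3 + A * x + B → 0 ≤ y → (H : ℤ) ≤ x → Irreducible (gp A x y) →
      (∀ l : ℝ, l ^ 4 - 6 * x * l ^ 2 + 8 * y * l - (3 * x ^ 2 + 4 * A) = 0 → l ∈ ℚ⟮l₁⟯) →
      x.natAbs ≤ (D * X₁ * H) ^ (1 + 8 * eE) := by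
    intro A B x y H hH h1 hE hy hx hirr hroots
    obtain ⟨F, p, q, e1, e2, e3, e4, e5, e6, e7, e8⟩ :=
      data hC A B x y H hH h1 hE hy hx hirr
    obtain ⟨n1, n2⟩ := g3 F e1.symm e2 e3 (by
      intro t ht _
      obtain ⟨l, r1, r2, r3⟩ := e8 t ht
      have r4 : ℚ⟮t⟯ ≤ ℚ⟮t₁⟯ := by
        rw [← hfld]
        exact (adjoin_simple_le_iff.2 r3).trans (adjoin_simple_le_iff.2 (hroots l r1))
      rw [sup_eq_left.2 r4, g2]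
      norm_num) p q e4
    have hDX : X₁ ≤ D * X₁ * H := by
      calc X₁ = 1 * X₁ * 1 := by ring
        _ ≤ D * X₁ * H := Nat.mul_le_mul (Nat.mul_le_mul_right _ (by omega)) h1
    have n3 : m * ((4 + 1) * len F) ≤ (D * X₁ * H) ^ 2 := by
      calc m * ((4 + 1) * len F) ≤ (C * H₁ * X₁) * ((4 + 1) * ((5 * C + 1) * H ^ 2)) := by
            gcongr
        _ ≤ (C * X₁ * X₁) * ((4 + 1) * ((5 * C + 1) * H ^ 2)) := by gcongr
        _ = (C * (25 * C + 5)) * (X₁ ^ 2 * H ^ 2) := by ring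
        _ ≤ (D * D) * (X₁ ^ 2 * H ^ 2) := by
            apply Nat.mul_le_mul_right
            exact Nat.mul_le_mul (by omega) (by omega)
        _ = (D * X₁ * H) ^ 2 := by ring
    have n4 : max p.natAbs q.natAbs ≤ ((D * X₁ * H) ^ 2) ^ eE :=
      max_le (n1.trans (Nat.pow_le_pow_left n3 _)) (n2.trans (Nat.pow_le_pow_left n3 _))
    calc x.natAbs ≤ C * H * (max p.natAbs q.natAbs) ^ 4 := e6
      _ ≤ (D * X₁ * H) * (((D * X₁ * H) ^ 2) ^ eE) ^ 4 := by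
          apply Nat.mul_le_mul _ (Nat.pow_le_pow_left n4 _)
          apply Nat.mul_le_mul_right
          calc C = C * 1 := by ring
            _ ≤ D * X₁ := Nat.mul_le_mul (by omega) hX1
      _ = (D * X₁ * H) ^ (1 + 8 * eE) := by
          rw [← pow_mul, ← pow_mul, pow_add, pow_one]
          congr 2
  intro A B x y hD hE hroots
  obtain ⟨H, hH⟩ : ∃ H : ℕ, H = max A.natAbs B.natAbs := ⟨_, rfl⟩
  have h1 := H_pos hD
  rw [← hH] at h1 ⊢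
  have hone : 1 ≤ D * X₁ * H := Nat.mul_pos (Nat.mul_pos (by omega) hX1) h1
  have key : ∀ (c k : ℕ), c ≤ D → 1 ≤ k → k ≤ 20 + 8 * eE → x.natAbs ≤ c * H ^ k →
      x.natAbs ≤ (D * X₁ * H) ^ (20 + 8 * eE) := by
    intro c k hc hk1 hk h
    calc x.natAbs ≤ c * H ^ k := h
      _ ≤ D ^ k * H ^ k := by
          apply Nat.mul_le_mul_right
          exact hc.trans (Nat.le_self_pow (by omega) _)
      _ = (D * 1 * H) ^ k := by rw [mul_one, mul_pow]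
      _ ≤ (D * X₁ * H) ^ k := by
          apply Nat.pow_le_pow_left
          exact Nat.mul_le_mul_right _ (Nat.mul_le_mul_left _ hX1)
      _ ≤ _ := Nat.pow_le_pow_right hone hk
  have key2 : x.natAbs ≤ (D * X₁ * H) ^ (1 + 8 * eE) → x.natAbs ≤ (D * X₁ * H) ^ (20 + 8 * eE) :=
    fun h => h.trans (Nat.pow_le_pow_right hone (by omega))
  by_cases hx : (H : ℤ) ≤ x
  · rcases classify A x y with hirr | ⟨l, hl⟩ | ⟨s, a, b, e1, e2, e3⟩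
    · by_cases hy : 0 ≤ y
      · exact key2 (main A B x y H hH h1 hE hy hx hirr hroots)
      · refine key2 (main A B x (-y) H hH h1 (by rw [neg_sq]; exact hE) (by omega) hx
          (irr_neg hirr) ?_)
        intro l hl
        have h2 := hroots (-l) (by
          push_cast at hl
          linear_combination hl)
        simpa using (ℚ⟮l₁⟯).neg_mem h2
    · exact key c2 20 (by omega) (by omega) (by omega) (hH ▸ hc2 A B x y l hD hE hl)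
    · exact key c3 20 (by omega) (by omega) (by omega) (hH ▸ hc3 A B x y s a b hD hE e1 e2 e3)
  · have h2 := lower_x hH h1 hE
    refine key 2 1 (by omega) (by omega) (by omega) ?_
    rw [pow_one]
    omega

/-- Repulsion with absolute constants. -/
theorem main_b (hR : S_RED2) (hL : S_LIN) (hQ : S_QUAD) :
    ∃ C : ℕ, ∀ A₁ B₁ x₁ y₁ : ℤ, 4 * A₁ ^ 3 + 27 * B₁ ^ 2 ≠ 0 →
      y₁ ^ 2 = x₁ ^ 3 + A₁ * x₁ + B₁ →
      (C * max A₁.natAbs B₁.natAbs) ^ (10 ^ 12 * 8 ^ 43) < x₁.natAbs →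
      ∃ l₁ : ℝ, l₁ ^ 4 - 6 * x₁ * l₁ ^ 2 + 8 * y₁ * l₁ - (3 * x₁ ^ 2 + 4 * A₁) = 0 ∧
        ∀ A B x y : ℤ, 4 * A ^ 3 + 27 * B ^ 2 ≠ 0 → y ^ 2 = x ^ 3 + A * x + B →
        (∀ l : ℝ, l ^ 4 - 6 * x * l ^ 2 + 8 * y * l - (3 * x ^ 2 + 4 * A) = 0 → l ∈ ℚ⟮l₁⟯) →
        max x.natAbs y.natAbs
          ≤ (C * x₁.natAbs * (max A.natAbs B.natAbs)) ^ (10 ^ 12 * 8 ^ 43) := by
  have hL' := hL
  have hQ' := hQ
  obtain ⟨C, hC2, hC⟩ := bound_b hR hL hQ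
  obtain ⟨c2, hc2⟩ := hL'
  obtain ⟨c3, hc3⟩ := hQ'
  refine ⟨C + c2 + c3, ?_⟩
  obtain ⟨D, hDdef⟩ : ∃ D, D = C + c2 + c3 := ⟨_, rfl⟩
  rw [← hDdef]
  have hexp : (20 + 8 * eE) * 2 + 1 ≤ 10 ^ 12 * 8 ^ 43 := by
    have : eE = 10 ^ 10 * 8 ^ 43 := by
      unfold eE
      rw [Pool.Agent.W257.eR]
      norm_num
    rw [this]
    norm_num
  obtain ⟨M, hM⟩ : ∃ M, M = 10 ^ 12 * 8 ^ 43 := ⟨_, rfl⟩
  rw [← hM] at hexp ⊢
  intro A₁ B₁ x₁ y₁ hD₁ hE₁ hbig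
  obtain ⟨H₁, hH₁⟩ : ∃ H : ℕ, H = max A₁.natAbs B₁.natAbs := ⟨_, rfl⟩
  have h1₁ := H_pos hD₁
  rw [← hH₁] at h1₁ hbig
  have hDH : 1 ≤ D * H₁ := Nat.mul_pos (by omega) h1₁
  have kb : ∀ (c k : ℕ), c ≤ D → 1 ≤ k → k ≤ M → ¬ (x₁.natAbs ≤ c * H₁ ^ k) := by
    intro c k hc hk1 hk h
    have h2 : x₁.natAbs ≤ (D * H₁) ^ M := by
      calc x₁.natAbs ≤ c * H₁ ^ k := h
        _ ≤ D ^ k * H₁ ^ k := by
            apply Nat.mul_le_mul_right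
            exact hc.trans (Nat.le_self_pow (by omega) _)
        _ = (D * H₁) ^ k := by rw [mul_pow]
        _ ≤ _ := Nat.pow_le_pow_right hDH hk
    omega
  have hx1H : (H₁ : ℤ) ≤ x₁ := by
    by_contra hcon
    have h2 := lower_x hH₁ h1₁ hE₁
    apply kb 2 1 (by omega) (by omega) (by omega)
    rw [pow_one]
    omega
  have hirr : Irreducible (gp A₁ x₁ y₁) := by
    rcases classify A₁ x₁ y₁ with hirr | ⟨l, hl⟩ | ⟨s, a, b, e1, e2, e3⟩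
    · exact hirr
    · exact absurd (hH₁ ▸ hc2 A₁ B₁ x₁ y₁ l hD₁ hE₁ hl)
        (kb c2 20 (by omega) (by omega) (by omega))
    · exact absurd (hH₁ ▸ hc3 A₁ B₁ x₁ y₁ s a b hD₁ hE₁ e1 e2 e3)
        (kb c3 20 (by omega) (by omega) (by omega))
  have hbig2 : (C * H₁) ^ (1 + 8 * eE) < x₁.natAbs := by
    refine lt_of_le_of_lt ?_ hbig
    exact (Nat.pow_le_pow_left (Nat.mul_le_mul_right _ (by omega)) _).trans
      (Nat.pow_le_pow_right hDH (by omega))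
  have hX1 : 1 ≤ x₁.natAbs := by omega
  have fin : ∀ A B x y : ℤ, 4 * A ^ 3 + 27 * B ^ 2 ≠ 0 → y ^ 2 = x ^ 3 + A * x + B →
      x.natAbs ≤ (C * x₁.natAbs * (max A.natAbs B.natAbs)) ^ (20 + 8 * eE) →
      max x.natAbs y.natAbs ≤ (D * x₁.natAbs * (max A.natAbs B.natAbs)) ^ M := by
    intro A B x y hDd hE hx
    have h1 := H_pos hDd
    obtain ⟨H, hH⟩ : ∃ H : ℕ, H = max A.natAbs B.natAbs := ⟨_, rfl⟩
    rw [← hH] at h1 hx ⊢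
    obtain ⟨W, hW⟩ : ∃ W, W = D * x₁.natAbs * H := ⟨_, rfl⟩
    have hW2 : 2 ≤ W := by
      rw [hW]
      calc 2 = 2 * 1 * 1 := by norm_num
        _ ≤ D * x₁.natAbs * H := Nat.mul_le_mul (Nat.mul_le_mul (by omega) hX1) h1
    have hCW : C * x₁.natAbs * H ≤ W := by
      rw [hW]
      exact Nat.mul_le_mul_right _ (Nat.mul_le_mul_right _ (by omega))
    have hHW : H ≤ W ^ (20 + 8 * eE) := by
      refine le_trans ?_ (Nat.le_self_pow (by omega) W)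
      rw [hW]
      calc H = 1 * 1 * H := by ring
        _ ≤ D * x₁.natAbs * H := Nat.mul_le_mul_right _ (Nat.mul_le_mul (by omega) hX1)
    have hx2 : x.natAbs ≤ W ^ (20 + 8 * eE) := hx.trans (Nat.pow_le_pow_left hCW _)
    have hy := y_of_x hE hx2 (hH ▸ hHW)
    rw [← hW]
    have h2 : 2 * (W ^ (20 + 8 * eE)) ^ 2 ≤ W ^ M := by
      calc 2 * (W ^ (20 + 8 * eE)) ^ 2 ≤ W * (W ^ (20 + 8 * eE)) ^ 2 := Nat.mul_le_mul_right _ hW2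
        _ = W ^ ((20 + 8 * eE) * 2 + 1) := by rw [← pow_mul, pow_succ, mul_comm]
        _ ≤ W ^ M := Nat.pow_le_pow_right (by omega) hexp
    refine max_le (hx2.trans ?_) (hy.trans h2)
    exact Nat.pow_le_pow_right (by omega) (by omega)
  by_cases hy : 0 ≤ y₁
  · obtain ⟨l₁, k1, k2⟩ := hC A₁ B₁ x₁ y₁ H₁ hH₁ h1₁ hE₁ hy hx1H hirr hbig2
    exact ⟨l₁, k1, fun A B x y hDd hE hroots => fin A B x y hDd hE (k2 A B x y hDd hE hroots)⟩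
  · obtain ⟨l₁, k1, k2⟩ := hC A₁ B₁ x₁ (-y₁) H₁ hH₁ h1₁ (by rw [neg_sq]; exact hE₁) (by omega)
      hx1H (irr_neg hirr) hbig2
    refine ⟨-l₁, ?_, ?_⟩
    · push_cast at k1
      linear_combination k1
    · have hfld : ℚ⟮-l₁⟯ ≤ ℚ⟮l₁⟯ :=
        adjoin_simple_le_iff.2 ((ℚ⟮l₁⟯).neg_mem (mem_adjoin_simple_self ℚ l₁))
      intro A B x y hDd hE hroots
      exact fin A B x y hDd hE (k2 A B x y hDd hE (fun l hl => hfld (hroots l hl)))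

end Pool.Agent.W257.HL
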